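import Pool.Agent.P.MP_9aa8f2_an.Norm

namespace Pool.Agent.P.MP_9aa8f2_an

open MeasureTheory

theorem ii_of_bdd {g : ℝ → ℝ} (hg : Measurable g) {c : ℝ} (hc : ∀ t, |g t| ≤ c) (a b : ℝ) :
    IntervalIntegrable g volume a b := by
  refine (intervalIntegrable_const (c := c)).mono_fun' hg.aestronglyMeasurable ?_
  exact Filter.Eventually.of_forall fun t => hc t

theorem prim_abs_le {g : ℝ → ℝ} (hg : Measurable g) {c : ℝ} (hc : ∀ t, |g t| ≤ c) (x y : ℝ) :
    |(∫ t in (0 : ℝ)..x, g t) - ∫ t in (0 : ℝ)..y, g t| ≤ c * dist x y := by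
  rw [intervalIntegral.integral_interval_sub_left (ii_of_bdd hg hc _ _) (ii_of_bdd hg hc _ _),
    Real.dist_eq]
  exact intervalIntegral.norm_integral_le_of_norm_le_const (f := g) (C := c) fun t _ => hc t

/-- The primitive of a bounded measurable function as an element of `Lip0 0`. -/
noncomputable def prim (g : ℝ → ℝ) (hg : Measurable g) (c : ℝ) (hc : ∀ t, |g t| ≤ c) :
    Lip0 (0 : ℝ) :=
  ⟨fun x => ∫ t in (0 : ℝ)..x, g t,
    lip_of_abs_le ((abs_nonneg _).trans (hc 0)) (prim_abs_le hg hc), by simp⟩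

theorem abs_deriv_le (f : Lip0 (0 : ℝ)) (t : ℝ) : |deriv (f : ℝ → ℝ) t| ≤ lipNorm (f : ℝ → ℝ) := by
  have h : LipschitzWith ⟨lipNorm (f : ℝ → ℝ), lipNorm_nonneg f.2.1⟩ (f : ℝ → ℝ) :=
    LipschitzWith.of_dist_le_mul fun x y => by
      rw [Real.dist_eq]; exact abs_sub_le_lipNorm f.2.1 x y
  exact norm_deriv_le_of_lipschitz h

theorem eq_prim (f : Lip0 (0 : ℝ)) (x : ℝ) :
    (f : ℝ → ℝ) x = ∫ t in (0 : ℝ)..x, deriv (f : ℝ → ℝ) t := by
  obtain ⟨K, hK⟩ := f.2.1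
  rw [(hK.lipschitzOnWith.absolutelyContinuousOnInterval).integral_deriv_eq_sub]
  have : (f : ℝ → ℝ) 0 = 0 := f.2.2
  rw [this, sub_zero]

/-- Finite families in `Lip0 ℝ` almost lie in the span of a family `e` behaving like the unit
vector basis of `ℓ∞`. -/
theorem exists_atoms {κ : Type} [Fintype κ] (x : κ → Lip0 (0 : ℝ)) {D η : ℝ} (hη : 0 < η)
    (hD : ∀ k, lipNorm (x k : ℝ → ℝ) ≤ D) :
    ∃ (J : Finset (κ → ℤ)) (e : (κ → ℤ) → Lip0 (0 : ℝ)) (a : κ → (κ → ℤ) → ℝ),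
      (∀ k, ∀ j ∈ J, |a k j| ≤ D + 2 * η) ∧
      (∀ ε : (κ → ℤ) → ℝ, (∀ j, |ε j| ≤ 1) →
        lipNorm ((∑ j ∈ J, ε j • e j : Lip0 (0 : ℝ)) : ℝ → ℝ) ≤ 1) ∧
      ∀ k, lipNorm ((x k - ∑ j ∈ J, a k j • e j : Lip0 (0 : ℝ)) : ℝ → ℝ) ≤ η := by
  classical
  let τ : ℝ → κ → ℤ := fun t k => ⌊deriv (x k : ℝ → ℝ) t / η⌋
  have hτ : Measurable τ :=
    measurable_pi_lambda _ fun k => ((measurable_deriv _).div_const η).floor
  let m : ℤ := ⌊D / η⌋ + 1
  let J : Finset (κ → ℤ) := Fintype.piFinset fun _ => Finset.Icc (-m) m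
  have hτJ : ∀ t, τ t ∈ J := fun t => by
    refine Fintype.mem_piFinset.2 fun k => Finset.mem_Icc.2 ?_
    have h := (abs_deriv_le (x k) t).trans (hD k)
    rw [abs_le] at h
    constructor
    · refine Int.le_floor.2 ?_
      have h1 : D / η < (m : ℝ) := by simp [m]
      have h2 : -D / η ≤ deriv (x k : ℝ → ℝ) t / η := div_le_div_of_nonneg_right h.1 hη.le
      rw [neg_div] at h2
      push_cast
      linarith
    · have : ⌊deriv (x k : ℝ → ℝ) t / η⌋ ≤ ⌊D / η⌋ :=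
        Int.floor_mono (div_le_div_of_nonneg_right h.2 hη.le)
      simp only [τ, m]
      omega
  let χ : (κ → ℤ) → ℝ → ℝ := fun j t => if τ t = j then 1 else 0
  have hχm : ∀ j, Measurable (χ j) := fun j =>
    Measurable.ite (hτ (measurableSet_singleton j)) measurable_const measurable_const
  have hχb : ∀ j t, |χ j t| ≤ 1 := fun j t => by
    simp only [χ]; split_ifs <;> simp
  have hsum : ∀ (c : (κ → ℤ) → ℝ) t, ∑ j ∈ J, c j * χ j t = c (τ t) := fun c t => by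
    simp only [χ, mul_ite, mul_one, mul_zero]
    rw [Finset.sum_ite_eq, if_pos (hτJ t)]
  let e : (κ → ℤ) → Lip0 (0 : ℝ) := fun j => prim (χ j) (hχm j) 1 (hχb j)
  have hcm : ∀ c : (κ → ℤ) → ℝ, Measurable fun t => c (τ t) := fun c =>
    (measurable_of_countable c).comp hτ
  have hval : ∀ (c : (κ → ℤ) → ℝ) y,
      ((∑ j ∈ J, c j • e j : Lip0 (0 : ℝ)) : ℝ → ℝ) y = ∫ t in (0 : ℝ)..y, c (τ t) := fun c y => by
    rw [Submodule.coe_sum, Finset.sum_apply]
    simp only [← hsum c]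
    rw [intervalIntegral.integral_finsetSum fun j _ =>
      (ii_of_bdd (hχm j) (hχb j) _ _).const_mul (c j)]
    refine Finset.sum_congr rfl fun j _ => ?_
    rw [intervalIntegral.integral_const_mul]
    rfl
  have hab : ∀ k, ∀ j ∈ J, |η * (j k : ℝ)| ≤ D + 2 * η := fun k j hj => by
    have h := Finset.mem_Icc.1 (Fintype.mem_piFinset.1 hj k)
    have h1 : (m : ℝ) ≤ D / η + 1 := by simpa [m] using Int.floor_le (D / η)
    have h2 : η * (m : ℝ) ≤ D + η := by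
      calc η * (m : ℝ) ≤ η * (D / η + 1) := mul_le_mul_of_nonneg_left h1 hη.le
        _ = D + η := by field_simp
    have h3 : -(m : ℝ) ≤ j k := by exact_mod_cast h.1
    have h4 : (j k : ℝ) ≤ m := by exact_mod_cast h.2
    rw [abs_le]
    constructor <;> nlinarith
  refine ⟨J, e, fun k j => η * (j k : ℝ), hab, fun ε hε => ?_, fun k => ?_⟩
  · refine lipNorm_le zero_le_one fun y z => (le_abs_self _).trans ?_
    rw [hval, hval]
    exact prim_abs_le (hcm ε) (fun t => hε _) y z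
  · refine lipNorm_le hη.le fun y z => (le_abs_self _).trans ?_
    have hm1 : Measurable (deriv (x k : ℝ → ℝ)) := measurable_deriv _
    have hm2 := hcm fun j => η * (j k : ℝ)
    have hb2 : ∀ t, |η * (τ t k : ℝ)| ≤ D + 2 * η := fun t => hab k _ (hτJ t)
    have hv : ∀ y, ((x k - ∑ j ∈ J, (η * (j k : ℝ)) • e j : Lip0 (0 : ℝ)) : ℝ → ℝ) y
        = ∫ t in (0 : ℝ)..y, (deriv (x k : ℝ → ℝ) t - η * (τ t k : ℝ)) := fun y => by
      rw [Submodule.coe_sub, Pi.sub_apply, hval, eq_prim (x k) y,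
        intervalIntegral.integral_sub (ii_of_bdd hm1 (abs_deriv_le (x k)) _ _)
          (ii_of_bdd hm2 hb2 _ _)]
    rw [hv, hv]
    refine prim_abs_le (hm1.sub hm2) (fun t => ?_) y z
    have h1 := Int.floor_le (deriv (x k : ℝ → ℝ) t / η)
    have h2 := Int.lt_floor_add_one (deriv (x k : ℝ → ℝ) t / η)
    rw [le_div_iff₀ hη] at h1
    rw [div_lt_iff₀ hη] at h2
    simp only [τ, Pi.sub_apply]
    rw [abs_le]
    constructor <;> nlinarith

end Pool.Agent.P.MP_9aa8f2_an
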