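import Pool.Agent.P.MP_9aa8f2_an.Geo

namespace Pool.Agent.P.MP_9aa8f2_an

open Finset

def sg (b : Bool) : ℝ := if b then 1 else -1

theorem sg_not (b : Bool) : sg (!b) = -sg b := by cases b <;> simp [sg]
theorem sg_sq (b : Bool) : sg b * sg b = 1 := by cases b <;> simp [sg]
theorem abs_sg (b : Bool) : |sg b| = 1 := by cases b <;> simp [sg]

theorem sum_sg_mul {ι : Type} [Fintype ι] [DecidableEq ι] {β β' : ι} (h : β ≠ β') :
    ∑ σ : ι → Bool, sg (σ β) * sg (σ β') = 0 := by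
  let f : (ι → Bool) → (ι → Bool) := fun σ => Function.update σ β (!σ β)
  have hf : Function.Involutive f := fun σ => by
    funext k
    by_cases hk : k = β
    · subst hk; simp [f]
    · simp [f, Function.update_of_ne hk]
  have h1 := Equiv.sum_comp hf.toPerm fun σ : ι → Bool => sg (σ β) * sg (σ β')
  have h2 : ∀ σ : ι → Bool, sg (f σ β) * sg (f σ β') = -(sg (σ β) * sg (σ β')) := fun σ => by
    simp [f, Function.update_of_ne h.symm, sg_not]
  simp only [Function.Involutive.coe_toPerm, h2, sum_neg_distrib] at h1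
  linarith

theorem sum_sg_sq {ι : Type} [Fintype ι] [DecidableEq ι] (a : ι → ℝ) :
    ∑ σ : ι → Bool, (∑ β, sg (σ β) * a β) ^ 2
      = Fintype.card (ι → Bool) * ∑ β, a β ^ 2 := by
  have h : ∀ σ : ι → Bool, (∑ β, sg (σ β) * a β) ^ 2
      = ∑ β, ∑ β', a β * a β' * (sg (σ β) * sg (σ β')) := fun σ => by
    rw [sq, sum_mul_sum]
    exact sum_congr rfl fun β _ => sum_congr rfl fun β' _ => by ring
  simp only [h]
  rw [sum_comm, mul_sum]
  refine sum_congr rfl fun β _ => ?_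
  rw [sum_comm, sum_eq_single β]
  · simp only [sg_sq, mul_one, sum_const, card_univ, nsmul_eq_mul]; ring
  · intro β' _ hβ
    rw [← mul_sum, sum_sg_mul (Ne.symm hβ), mul_zero]
  · simp

theorem sum_sg_abs {ι : Type} [Fintype ι] [DecidableEq ι] (a : ι → ℝ) :
    ∑ σ : ι → Bool, |∑ β, sg (σ β) * a β| ≤ Fintype.card (ι → Bool) * √(∑ β, a β ^ 2) := by
  have h1 := sq_sum_le_card_mul_sum_sq (s := (univ : Finset (ι → Bool)))
    (f := fun σ => |∑ β, sg (σ β) * a β|)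
  simp only [sq_abs] at h1
  rw [sum_sg_sq, card_univ] at h1
  have h2 : 0 ≤ ∑ β, a β ^ 2 := sum_nonneg fun _ _ => sq_nonneg _
  refine abs_le_of_sq_le_sq' ?_ (by positivity) |>.2
  rw [mul_pow, Real.sq_sqrt h2]
  exact h1.trans (le_of_eq (by ring))

theorem sum_sqrt_le (n : ℕ) (q : ℕ → ℝ) (hq : ∀ i, 0 ≤ q i) :
    ∑ i ∈ range n, √(q i) ≤ √n * √(∑ i ∈ range n, q i) := by
  have h1 := sq_sum_le_card_mul_sum_sq (s := range n) (f := fun i => √(q i))
  simp only [Real.sq_sqrt (hq _), card_range] at h1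
  rw [← Real.sqrt_mul (Nat.cast_nonneg n)]
  exact Real.le_sqrt_of_sq_le h1

variable {B : ℕ}

theorem al_sum {ι : Type} (J : Finset ι) (a : ι → ℝ) (F : ι → ℝ → ℝ → ℝ) (i m : ℕ) (x y s : ℝ)
    (β : Addr B i) : al B i m (fun X Y => ∑ j ∈ J, a j * F j X Y) x y s β
      = ∑ j ∈ J, a j * al B i m (F j) x y s β := by
  have : ∀ X t, sd (fun X Y => ∑ j ∈ J, a j * F j X Y) X t
      = fun Y => ∑ j ∈ J, a j * sd (F j) X t Y := fun X t => by
    funext Y
    simp only [sd, ← sum_sub_distrib]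
    exact sum_congr rfl fun j _ => by ring
  simp only [al, this, avg_sum, sum_div, mul_div_assoc]

/-- `G` follows the sign pattern `σ` at level `i`. -/
def Follows (B i : ℕ) (σ : Addr B i → Bool) (G : ℝ → ℝ → ℝ) : Prop :=
  ∀ β, ∀ Y ∈ cantorSet, yb B i 0 1 β ≤ Y → Y ≤ yb B i 0 1 β + 1 / B ^ (i + 1) →
    1 / B ^ (i + 1) ≤ sg (σ β) * sd G (mid B i 0 1 β) (1 / B ^ (i + 1)) Y

theorem good_zero_one : Good 0 1 := fun z hz => by simpa using hz

theorem Follows.third (hB : Base B) {i : ℕ} {σ : Addr B i → Bool} {G : ℝ → ℝ → ℝ}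
    (h : Follows B i σ G) (m : ℕ) : 1 / 3 ≤ ∑ β, sg (σ β) * al B i m G 0 0 1 β := by
  have hp := hB.rpos
  have h1 : ∀ β, 1 / (B : ℝ) ^ (i + 1) / 2 ^ (i + 1) ≤ sg (σ β) * al B i m G 0 0 1 β := fun β => by
    rw [al, ← mul_div_assoc, ← avg_mul]
    exact div_le_div_of_nonneg_right
      (avg_ge hB m (addr_good hB i good_zero_one β) (by positivity) (h β)) (by positivity)
  refine le_trans ?_ (sum_le_sum fun β _ => h1 β)
  rw [sum_const, card_univ, card_addr, nsmul_eq_mul]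
  have h2 : (B : ℝ) ≤ 3 * ((B / 2 : ℕ) : ℝ) := by
    have := hB.three
    exact_mod_cast (by omega : B ≤ 3 * (B / 2))
  have h3 : (((2 * B) ^ i * (2 * (B / 2)) : ℕ) : ℝ) * (1 / (B : ℝ) ^ (i + 1) / 2 ^ (i + 1))
      = ((B / 2 : ℕ) : ℝ) / B := by
    rw [Nat.cast_mul, Nat.cast_pow, Nat.cast_mul, Nat.cast_mul]
    generalize ((B / 2 : ℕ) : ℝ) = h
    push_cast
    field_simp
    ring
  rw [h3, div_le_div_iff₀ (by norm_num) hp]
  linarith

theorem core (hB : Base B) {n : ℕ} (hn : n ≤ B) {ι : Type} {J : Finset ι}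
    {F : ι → ℝ → ℝ → ℝ} {K D : ℝ} (hK : 0 ≤ K) (hD : 0 ≤ D) (hF : Atoms J F K)
    (h : ∀ i < n, ∀ σ : Addr B i → Bool, ∃ a : ι → ℝ, (∀ j ∈ J, |a j| ≤ D) ∧
      Follows B i σ fun X Y => ∑ j ∈ J, a j * F j X Y) : (n : ℝ) ≤ 18 * D * K * √n := by
  classical
  have h1 : ∀ i ∈ range n, 1 / 3 ≤ D * ∑ j ∈ J, √(qq B i (n - 1 - i) (F j) 0 0 1) := by
    intro i hi
    have h2 : ∀ σ : Addr B i → Bool, 1 / 3 ≤
        D * ∑ j ∈ J, |∑ β, sg (σ β) * al B i (n - 1 - i) (F j) 0 0 1 β| := fun σ => by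
      obtain ⟨a, ha, hf⟩ := h i (mem_range.1 hi) σ
      refine (hf.third hB (n - 1 - i)).trans ?_
      simp only [al_sum, mul_sum]
      rw [sum_comm]
      refine sum_le_sum fun j hj => ?_
      have : ∑ β, sg (σ β) * (a j * al B i (n - 1 - i) (F j) 0 0 1 β)
          = a j * ∑ β, sg (σ β) * al B i (n - 1 - i) (F j) 0 0 1 β := by
        rw [mul_sum]; exact sum_congr rfl fun β _ => by ring
      rw [this]
      refine (le_abs_self _).trans ?_
      rw [abs_mul]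
      exact mul_le_mul_of_nonneg_right (ha j hj) (abs_nonneg _)
    have h3 := sum_le_sum fun σ (_ : σ ∈ univ) => h2 σ
    rw [← mul_sum, sum_comm, sum_const, card_univ, nsmul_eq_mul] at h3
    have h4 := h3.trans (mul_le_mul_of_nonneg_left
      (sum_le_sum fun j _ => sum_sg_abs (al B i (n - 1 - i) (F j) 0 0 1)) hD)
    rw [← mul_sum, mul_left_comm] at h4
    exact le_of_mul_le_mul_left h4 (by exact_mod_cast Fintype.card_pos)
  have h5 := sum_le_sum h1
  rw [← mul_sum, sum_comm, sum_const, card_range, nsmul_eq_mul] at h5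
  have h6 : ∑ j ∈ J, ∑ i ∈ range n, √(qq B i (n - 1 - i) (F j) 0 0 1)
      ≤ ∑ j ∈ J, √n * (2 * VV B (F j) n 0 0 1 + 2 * EE B (F j) n 0 0 1) :=
    sum_le_sum fun j _ => (sum_sqrt_le n _ fun i => sum_nonneg fun _ _ => sq_nonneg _).trans
      (mul_le_mul_of_nonneg_left (sqrt_QQ_le hB.pos (F j) n 0 0 1) (Real.sqrt_nonneg _))
  rw [← mul_sum, sum_add_distrib, ← mul_sum, ← mul_sum] at h6
  have h7 := sum_VV hB hF n (x := 0) (y := 0) (s := 1) le_rfl zero_le_one (by norm_num)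
    good_zero_one
  have h8 := sum_EE hB hF n (x := 0) (y := 0) (s := 1) le_rfl zero_le_one (by norm_num)
    good_zero_one
  have h9 : 2 * n * K * (1 / (B : ℝ)) ≤ 2 * K := by
    have : (n : ℝ) ≤ B := by exact_mod_cast hn
    rw [mul_one_div, div_le_iff₀ hB.rpos]
    nlinarith
  have h10 : √n * (2 * ∑ j ∈ J, VV B (F j) n 0 0 1 + 2 * ∑ j ∈ J, EE B (F j) n 0 0 1)
      ≤ √n * (6 * K) := mul_le_mul_of_nonneg_left (by linarith) (Real.sqrt_nonneg _)
  have h11 := h5.trans (mul_le_mul_of_nonneg_left (h6.trans h10) hD)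
  linarith

/-- A 2-Lipschitz test function with prescribed signs at the midpoints. -/
theorem exists_test (hB : Base B) (i : ℕ) (σ : Addr B i → Bool) :
    ∃ g : ℝ × ℝ → ℝ, LipschitzWith 2 g ∧ ∀ β Y, yb B i 0 1 β ≤ Y →
      Y ≤ yb B i 0 1 β + 1 / B ^ (i + 1) →
      g (mid B i 0 1 β, Y) = sg (σ β) * (1 / B ^ (i + 1)) ∧
      g (mid B i 0 1 β - 1 / B ^ (i + 1), Y) = 0 ∧ g (mid B i 0 1 β + 1 / B ^ (i + 1), Y) = 0 := by
  classical
  have hp := hB.rpos
  obtain ⟨t, ht⟩ : ∃ t : ℝ, t = 1 / B ^ (i + 1) := ⟨_, rfl⟩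
  have ht0 : 0 < t := by rw [ht]; positivity
  have hsep : ∀ β β' : Addr B i, β ≠ β' → 2 * t ≤ |mid B i 0 1 β - mid B i 0 1 β'| ∨
      2 * t ≤ |yb B i 0 1 β - yb B i 0 1 β'| := fun β β' h => by
    rw [ht]; exact addr_sep hB i zero_le_one h
  rw [← ht]
  generalize mid B i 0 1 = μ at *
  generalize yb B i 0 1 = ν at *
  let P : Addr B i → ℝ × ℝ → Prop := fun β p =>
    (p.1 = μ β - t ∨ p.1 = μ β ∨ p.1 = μ β + t) ∧ ν β ≤ p.2 ∧ p.2 ≤ ν β + t
  have hA : ∀ β β' p p', P β p → P β' p' → p.1 = μ β → (β = β' ∧ p'.1 = μ β') ∨ t ≤ dist p p' := by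
    intro β β' p p' hp hp' h1
    have d1 : |p.1 - p'.1| ≤ dist p p' := by
      rw [Prod.dist_eq, ← Real.dist_eq]; exact le_max_left _ _
    have d2 : |p.2 - p'.2| ≤ dist p p' := by
      rw [Prod.dist_eq, ← Real.dist_eq]; exact le_max_right _ _
    rw [abs_le] at d1 d2
    by_cases hβ : β = β'
    · subst hβ
      rcases hp'.1 with h2 | h2 | h2
      · right; linarith [d1.2]
      · exact Or.inl ⟨rfl, h2⟩
      · right; linarith [d1.1]
    · right
      rcases hsep β β' hβ with h2 | h2 <;> rw [le_abs] at h2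
      · rcases hp'.1 with h3 | h3 | h3 <;> rcases h2 with h2 | h2 <;> linarith [d1.1, d1.2]
      · rcases h2 with h2 | h2 <;> linarith [d2.1, d2.2, hp.2.1, hp.2.2, hp'.2.1, hp'.2.2]
  let f : ℝ × ℝ → ℝ := fun p =>
    ∑ β, if p.1 = μ β ∧ ν β ≤ p.2 ∧ p.2 ≤ ν β + t then sg (σ β) * t else 0
  have hf : ∀ β p, P β p → f p = if p.1 = μ β then sg (σ β) * t else 0 := fun β p hp => by
    simp only [f]
    rw [sum_eq_single β]
    · simp only [hp.2.1, hp.2.2, and_true]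
    · intro β' _ hβ
      rw [if_neg]
      intro h
      rcases hA β' β p p ⟨Or.inr (Or.inl h.1), h.2⟩ hp h.1 with h2 | h2
      · exact hβ h2.1
      · rw [dist_self] at h2; linarith
    · simp
  have hfb : ∀ β p, P β p → |f p| ≤ t := fun β p hp => by
    rw [hf β p hp]
    split_ifs
    · rw [abs_mul, abs_sg, one_mul, abs_of_pos ht0]
    · simpa using ht0.le
  have hL : LipschitzOnWith 2 f {p | ∃ β, P β p} := by
    refine LipschitzOnWith.of_dist_le_mul ?_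
    rintro p ⟨β, hp⟩ p' ⟨β', hp'⟩
    have hfar : t ≤ dist p p' → dist (f p) (f p') ≤ ((2 : NNReal) : ℝ) * dist p p' := fun h => by
      rw [Real.dist_eq]
      have := abs_sub (f p) (f p')
      push_cast
      linarith [hfb β p hp, hfb β' p' hp']
    have hz : f p = f p' → dist (f p) (f p') ≤ ((2 : NNReal) : ℝ) * dist p p' := fun h => by
      rw [h, dist_self]; positivity
    by_cases h1 : p.1 = μ β
    · rcases hA β β' p p' hp hp' h1 with h2 | h2
      · refine hz ?_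
        rw [hf β p hp, hf β' p' hp', if_pos h1, if_pos h2.2, h2.1]
      · exact hfar h2
    · by_cases h1' : p'.1 = μ β'
      · rcases hA β' β p' p hp' hp h1' with h2 | h2
        · exact absurd h2.2 h1
        · exact hfar (by rwa [dist_comm])
      · refine hz ?_
        rw [hf β p hp, hf β' p' hp', if_neg h1, if_neg h1']
  obtain ⟨g, hg, hfg⟩ := hL.extend_real
  refine ⟨g, hg, fun β Y h1 h2 => ⟨?_, ?_, ?_⟩⟩
  · have hp : P β (μ β, Y) := ⟨Or.inr (Or.inl rfl), h1, h2⟩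
    rw [← hfg ⟨β, hp⟩, hf β _ hp, if_pos rfl]
  · have hp : P β (μ β - t, Y) := ⟨Or.inl rfl, h1, h2⟩
    rw [← hfg ⟨β, hp⟩, hf β _ hp, if_neg]
    simp only; linarith
  · have hp : P β (μ β + t, Y) := ⟨Or.inr (Or.inr rfl), h1, h2⟩
    rw [← hfg ⟨β, hp⟩, hf β _ hp, if_neg]
    simp only; linarith

end Pool.Agent.P.MP_9aa8f2_an
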