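import Mathlib

namespace Pool.Agent.P.MP_9aa8f2_an

/-- `Lip0 p`: the real vector space of Lipschitz functions `X → ℝ` vanishing at the base point. -/
def Lip0 {X : Type} [MetricSpace X] (p : X) : Submodule ℝ (X → ℝ) where
  carrier := {f | (∃ K : NNReal, LipschitzWith K f) ∧ f p = 0}
  add_mem' := by
    rintro f g ⟨⟨K, hK⟩, hf⟩ ⟨⟨L, hL⟩, hg⟩
    exact ⟨⟨K + L, hK.add hL⟩, by simp [hf, hg]⟩
  zero_mem' := ⟨⟨0, LipschitzWith.const 0⟩, rfl⟩
  smul_mem' := by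
    rintro c f ⟨⟨K, hK⟩, hf⟩
    exact ⟨⟨‖c‖₊ * K, (lipschitzWith_smul c).comp hK⟩, by simp [hf]⟩

/-- The Lipschitz norm `sup {(f x - f y) / d(x,y) : x ≠ y}`. -/
noncomputable def lipNorm {X : Type} [MetricSpace X] (f : X → ℝ) : ℝ :=
  sSup {r : ℝ | ∃ x y : X, x ≠ y ∧ r = (f x - f y) / dist x y}

/-- Porosity of a subset of the Euclidean plane (closed balls, all radii). -/
def Porous (M : Set (EuclideanSpace ℝ (Fin 2))) : Prop :=
  ∃ l : ℝ, 0 < l ∧ ∀ (p : EuclideanSpace ℝ (Fin 2)) (r : ℝ), 0 < r →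
    ∃ x : EuclideanSpace ℝ (Fin 2), Metric.closedBall x (l * r) ⊆ Metric.closedBall p r \ M

/-- The product `[0,1] × C` of the unit interval with the middle-thirds Cantor set. -/
def comb : Set (EuclideanSpace ℝ (Fin 2)) := {p | p 0 ∈ Set.Icc (0 : ℝ) 1 ∧ p 1 ∈ cantorSet}

end Pool.Agent.P.MP_9aa8f2_an
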