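import Pool.Agent.P.MP_9aa8f2_an.Tree

namespace Pool.Agent.P.MP_9aa8f2_an

open Finset

def Good (y s : ℝ) : Prop := ∀ z ∈ cantorSet, y + s * z ∈ cantorSet

structure Base (B : ℕ) : Prop where
  three : 3 ≤ B
  mem : ∀ z ∈ cantorSet, z / B ∈ cantorSet ∧ (2 + z) / B ∈ cantorSet

theorem third_mem {z : ℝ} (hz : z ∈ cantorSet) : z / 3 ∈ cantorSet := by
  rw [cantorSet_eq_union_halves]; exact Or.inl ⟨z, hz, rfl⟩

theorem two_third_mem {z : ℝ} (hz : z ∈ cantorSet) : (2 + z) / 3 ∈ cantorSet := by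
  rw [cantorSet_eq_union_halves]; exact Or.inr ⟨z, hz, rfl⟩

theorem div_pow_mem {z : ℝ} (hz : z ∈ cantorSet) (k : ℕ) : z / 3 ^ k ∈ cantorSet := by
  induction k with
  | zero => simpa using hz
  | succ k ih => rw [pow_succ, ← div_div]; exact third_mem ih

theorem base_pow (L : ℕ) : Base (3 ^ (L + 1)) where
  three := by rw [pow_succ]; nlinarith [Nat.one_le_pow L 3 (by norm_num)]
  mem z hz := by
    push_cast
    refine ⟨div_pow_mem hz _, ?_⟩
    rw [pow_succ', ← div_div]
    exact div_pow_mem (two_third_mem hz) _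

variable {B : ℕ}

theorem Base.pos (hB : Base B) : 0 < B := by have := hB.three; omega

theorem Base.rpos (hB : Base B) : (0 : ℝ) < B := by exact_mod_cast hB.pos

theorem Base.three_mul (hB : Base B) {s : ℝ} (hs : 0 ≤ s) : 3 * (s / B) ≤ s := by
  have h : (3 : ℝ) ≤ B := by exact_mod_cast hB.three
  rw [← mul_div_assoc, div_le_iff₀ hB.rpos]
  nlinarith

theorem Good.mem {y s : ℝ} (h : Good y s) : y ∈ cantorSet := by
  simpa using h 0 zero_mem_cantorSet

theorem Good.child (hB : Base B) {y s : ℝ} (h : Good y s) (b : Bool) :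
    Good (yc b y (s / B)) (s / B) := fun z hz => by
  cases b
  · have := h _ (hB.mem z hz).1
    convert this using 1
    simp only [yc, Bool.false_eq_true, if_false]; ring
  · have := h _ (hB.mem z hz).2
    convert this using 1
    simp only [yc, if_true]; ring

theorem yc_range (b : Bool) (y : ℝ) {t : ℝ} (ht : 0 ≤ t) : y ≤ yc b y t ∧ yc b y t ≤ y + 2 * t := by
  cases b <;> simp [yc, ht]

theorem avg_ge (hB : Base B) (m : ℕ) {y s c : ℝ} {φ : ℝ → ℝ} (hg : Good y s) (hs : 0 ≤ s)
    (h : ∀ Y ∈ cantorSet, y ≤ Y → Y ≤ y + s → c ≤ φ Y) : c ≤ avg B m y s φ := by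
  induction m generalizing y s with
  | zero => exact h y hg.mem le_rfl (by linarith)
  | succ m ih =>
    have ht : 0 ≤ s / B := div_nonneg hs hB.rpos.le
    have h3 := hB.three_mul hs
    have hb : ∀ b, c ≤ avg B m (yc b y (s / B)) (s / B) φ := fun b =>
      ih (hg.child hB b) ht fun Y hY h1 h2 => h Y hY ((yc_range b y ht).1.trans h1)
        (by linarith [(yc_range b y ht).2])
    rw [avg_succ, Fintype.sum_bool]
    linarith [hb true, hb false]

theorem avg_diff_sum (hB : Base B) {ι : Type} (J : Finset ι) (φ : ι → ℝ → ℝ) (m : ℕ)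
    {y y' s c : ℝ} (hg : Good y s) (hg' : Good y' s)
    (h : ∀ Y ∈ cantorSet, ∀ Y' ∈ cantorSet, Y' - Y = y' - y → ∑ j ∈ J, |φ j Y' - φ j Y| ≤ c) :
    ∑ j ∈ J, |avg B m y' s (φ j) - avg B m y s (φ j)| ≤ c := by
  induction m generalizing y y' s with
  | zero => exact h y hg.mem y' hg'.mem rfl
  | succ m ih =>
    have hb : ∀ b, ∑ j ∈ J, |avg B m (yc b y' (s / B)) (s / B) (φ j)
        - avg B m (yc b y (s / B)) (s / B) (φ j)| ≤ c := fun b =>
      ih (hg.child hB b) (hg'.child hB b) fun Y hY Y' hY' h1 => h Y hY Y' hY' (by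
        rw [h1]; cases b <;> simp [yc])
    have h2 := add_le_add (hb true) (hb false)
    rw [← sum_add_distrib] at h2
    have h3 : ∑ j ∈ J, |avg B (m + 1) y' s (φ j) - avg B (m + 1) y s (φ j)| ≤
        ∑ j ∈ J, (|avg B m (yc true y' (s / B)) (s / B) (φ j)
          - avg B m (yc true y (s / B)) (s / B) (φ j)| +
          |avg B m (yc false y' (s / B)) (s / B) (φ j)
          - avg B m (yc false y (s / B)) (s / B) (φ j)|) / 2 := sum_le_sum fun j _ => by
      rw [avg_succ, avg_succ, Fintype.sum_bool, Fintype.sum_bool, ← sub_div, abs_div, abs_two]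
      refine div_le_div_of_nonneg_right (le_of_eq_of_le ?_ (abs_add_le _ _)) zero_le_two
      congr 1; ring
    rw [← sum_div] at h3
    linarith

/-- The family `F j` has summable increments on `[0,1] × C`. -/
def Atoms {ι : Type} (J : Finset ι) (F : ι → ℝ → ℝ → ℝ) (K : ℝ) : Prop :=
  ∀ x ∈ Set.Icc (0 : ℝ) 1, ∀ x' ∈ Set.Icc (0 : ℝ) 1, ∀ y ∈ cantorSet, ∀ y' ∈ cantorSet,
    ∑ j ∈ J, |F j x y - F j x' y'| ≤ K * (|x - x'| + |y - y'|)

theorem child_x (hB : Base B) {x s : ℝ} (hs : 0 ≤ s) {c : ℕ} (hc : c < B) :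
    x ≤ x + c * (s / B) ∧ x + c * (s / B) + s / B ≤ x + s := by
  have ht : 0 ≤ s / B := div_nonneg hs hB.rpos.le
  have h1 : (B : ℝ) * (s / B) = s := by have := hB.rpos; field_simp
  have h2 : (c : ℝ) + 1 ≤ B := by exact_mod_cast hc
  constructor
  · have : (0 : ℝ) ≤ c * (s / B) := by positivity
    linarith
  · nlinarith

theorem sum_VV (hB : Base B) {ι : Type} {J : Finset ι} {F : ι → ℝ → ℝ → ℝ} {K : ℝ}
    (hF : Atoms J F K) (n : ℕ) {x y s : ℝ} (hx : 0 ≤ x) (hs : 0 ≤ s) (hx' : x + s ≤ 1)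
    (hg : Good y s) : ∑ j ∈ J, VV B (F j) n x y s ≤ K * s := by
  induction n generalizing x y s with
  | zero =>
    have := hF (x + s) ⟨by linarith, hx'⟩ x ⟨hx, by linarith⟩ y hg.mem y hg.mem
    simpa [VV, abs_of_nonneg hs] using this
  | succ n ih =>
    have ht : 0 ≤ s / B := div_nonneg hs hB.rpos.le
    simp only [VV]
    rw [← sum_div, sum_comm]
    have hb : ∀ b, ∑ j ∈ J, ∑ c ∈ range B,
        VV B (F j) n (x + c * (s / B)) (yc b y (s / B)) (s / B) ≤ K * s := fun b => by
      rw [sum_comm]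
      refine (sum_le_sum (g := fun _ => K * (s / B)) fun c hc => ?_).trans (le_of_eq ?_)
      · have := child_x hB (x := x) hs (mem_range.1 hc)
        exact ih (hx.trans this.1) ht (this.2.trans hx') (hg.child hB b)
      · have := hB.rpos
        rw [sum_const, card_range, nsmul_eq_mul]; field_simp
    rw [Fintype.sum_bool]
    linarith [hb true, hb false]

theorem sum_EE (hB : Base B) {ι : Type} {J : Finset ι} {F : ι → ℝ → ℝ → ℝ} {K : ℝ}
    (hF : Atoms J F K) (n : ℕ) {x y s : ℝ} (hx : 0 ≤ x) (hs : 0 ≤ s) (hx' : x + s ≤ 1)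
    (hg : Good y s) : ∑ j ∈ J, EE B (F j) n x y s ≤ 2 * n * K * (s / B) := by
  induction n generalizing x y s with
  | zero => simp [EE]
  | succ n ih =>
    have ht : 0 ≤ s / B := div_nonneg hs hB.rpos.le
    simp only [EE]
    rw [sum_add_distrib, ← sum_div, ← sum_div, sum_comm]
    have hb : ∀ b, ∑ j ∈ J, ∑ c ∈ range B,
        EE B (F j) n (x + c * (s / B)) (yc b y (s / B)) (s / B) ≤ 2 * n * K * (s / B) :=
      fun b => by
      rw [sum_comm]
      refine (sum_le_sum (g := fun _ => 2 * n * K * (s / B / B)) fun c hc => ?_).trans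
        (le_of_eq ?_)
      · have := child_x hB (x := x) hs (mem_range.1 hc)
        exact ih (hx.trans this.1) ht (this.2.trans hx') (hg.child hB b)
      · have := hB.rpos
        rw [sum_const, card_range, nsmul_eq_mul]; field_simp
    have hd : ∑ j ∈ J, |sm B n (F j) x (y + 2 * (s / B)) s (s / B) - sm B n (F j) x y s (s / B)|
        ≤ 4 * K * (s / B) := by
      refine avg_diff_sum hB J (fun j Y => F j (x + s) Y - F j x Y) n (hg.child hB false)
        (hg.child hB true) fun Y hY Y' hY' h => ?_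
      have h0 : |Y' - Y| = 2 * (s / B) := by
        rw [h]; simp only [add_sub_cancel_left]
        exact abs_of_nonneg (by linarith)
      have h1 := hF (x + s) ⟨by linarith, hx'⟩ (x + s) ⟨by linarith, hx'⟩ Y' hY' Y hY
      have h2 := hF x ⟨hx, by linarith⟩ x ⟨hx, by linarith⟩ Y' hY' Y hY
      rw [h0, sub_self, abs_zero] at h1 h2
      have h3 := add_le_add h1 h2
      rw [← sum_add_distrib] at h3
      refine le_trans (sum_le_sum fun j _ => ?_) (h3.trans (le_of_eq (by ring)))
      refine le_of_eq_of_le ?_ (abs_sub _ _)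
      congr 1; ring
    rw [Fintype.sum_bool]
    push_cast
    linarith [hb true, hb false]

theorem scale_succ (B i : ℕ) (s : ℝ) : s / (B : ℝ) ^ (i + 1 + 1) = s / B / B ^ (i + 1) := by
  rw [div_div, pow_succ' _ (i + 1)]

theorem addr_range (hB : Base B) (i : ℕ) {x y s : ℝ} (hs : 0 ≤ s) (β : Addr B i) :
    x + s / B ^ (i + 1) ≤ mid B i x s β ∧ mid B i x s β + s / B ^ (i + 1) ≤ x + s ∧
      y ≤ yb B i y s β ∧ yb B i y s β + s / B ^ (i + 1) ≤ y + s := by
  induction i generalizing x y s with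
  | zero =>
    obtain ⟨b, t⟩ := β
    have ht : 0 ≤ s / B := div_nonneg hs hB.rpos.le
    have h1 := child_x hB (x := x) hs (c := 2 * t + 1) (by have := t.2; omega)
    have h2 := yc_range b y ht
    have h3 := hB.three_mul hs
    have h4 : (0 : ℝ) ≤ (t : ℕ) * (s / B) := by positivity
    push_cast at h1
    simp only [mid, yb, zero_add, pow_one]
    refine ⟨by nlinarith, h1.2, h2.1, by linarith [h2.2]⟩
  | succ i ih =>
    obtain ⟨⟨b, c⟩, β⟩ := β
    have ht : 0 ≤ s / B := div_nonneg hs hB.rpos.le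
    have h1 := child_x hB (x := x) hs c.2
    have h2 := yc_range b y ht
    have h3 := hB.three_mul hs
    have h4 := ih (x := x + (c : ℕ) * (s / B)) (y := yc b y (s / B)) ht β
    simp only [mid, yb, scale_succ]
    refine ⟨by linarith [h4.1, h1.1], by linarith [h4.2.1, h1.2], by linarith [h4.2.2.1, h2.1],
      by linarith [h4.2.2.2, h2.2]⟩

theorem addr_good (hB : Base B) (i : ℕ) {y s : ℝ} (hg : Good y s) (β : Addr B i) :
    Good (yb B i y s β) (s / B ^ (i + 1)) := by
  induction i generalizing y s with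
  | zero => simpa [yb] using hg.child hB β.1
  | succ i ih => rw [scale_succ]; exact ih (hg.child hB β.1.1) β.2

theorem nat_sep {a b : ℕ} (h : a ≠ b) : (a : ℝ) + 1 ≤ b ∨ (b : ℝ) + 1 ≤ a := by
  rcases lt_or_gt_of_ne h with h | h
  · left; exact_mod_cast h
  · right; exact_mod_cast h

theorem yc_sep {b b' : Bool} (h : b ≠ b') (y t : ℝ) :
    yc b y t = yc b' y t + 2 * t ∨ yc b' y t = yc b y t + 2 * t := by
  cases b <;> cases b' <;> simp [yc] at h ⊢

theorem addr_sep (hB : Base B) (i : ℕ) {x y s : ℝ} (hs : 0 ≤ s) {β β' : Addr B i} (h : β ≠ β') :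
    2 * (s / B ^ (i + 1)) ≤ |mid B i x s β - mid B i x s β'| ∨
      2 * (s / B ^ (i + 1)) ≤ |yb B i y s β - yb B i y s β'| := by
  induction i generalizing x y s with
  | zero =>
    obtain ⟨b, t⟩ := β
    obtain ⟨b', t'⟩ := β'
    have ht : 0 ≤ s / B := div_nonneg hs hB.rpos.le
    simp only [mid, yb, zero_add, pow_one]
    by_cases hb : b = b'
    · left
      have : (t : ℕ) ≠ t' := fun h' => h (by rw [hb, Fin.ext h'])
      rcases nat_sep this with h1 | h1
      · exact le_abs.2 (Or.inr (by nlinarith))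
      · exact le_abs.2 (Or.inl (by nlinarith))
    · right
      rcases yc_sep hb y (s / B) with h1 | h1
      · exact le_abs.2 (Or.inl (by linarith))
      · exact le_abs.2 (Or.inr (by linarith))
  | succ i ih =>
    obtain ⟨⟨b, c⟩, β⟩ := β
    obtain ⟨⟨b', c'⟩, β'⟩ := β'
    have ht : 0 ≤ s / B := div_nonneg hs hB.rpos.le
    have r1 := addr_range hB i (x := x + (c : ℕ) * (s / B)) (y := yc b y (s / B)) ht β
    have r2 := addr_range hB i (x := x + (c' : ℕ) * (s / B)) (y := yc b' y (s / B)) ht β'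
    have r3 : s / B / B ^ (i + 1) ≤ s / B := by linarith [r1.2.2.1, r1.2.2.2]
    simp only [mid, yb, scale_succ]
    by_cases hb : b = b'
    · by_cases hc : c = c'
      · subst hb hc
        exact ih ht fun h' => h (by rw [h'])
      · left
        rcases nat_sep (fun h' => hc (Fin.ext h')) with h1 | h1
        · exact le_abs.2 (Or.inr (by nlinarith [r1.2.1, r2.1]))
        · exact le_abs.2 (Or.inl (by nlinarith [r2.2.1, r1.1]))
    · right
      rcases yc_sep hb y (s / B) with h1 | h1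
      · exact le_abs.2 (Or.inl (by linarith [r1.2.2.1, r2.2.2.2]))
      · exact le_abs.2 (Or.inr (by linarith [r2.2.2.1, r1.2.2.2]))

theorem card_addr (B i : ℕ) : Fintype.card (Addr B i) = (2 * B) ^ i * (2 * (B / 2)) := by
  induction i with
  | zero =>
    have : Fintype.card (Addr B 0) = Fintype.card (Bool × Fin (B / 2)) := rfl
    simp [this]
  | succ i ih =>
    have : Fintype.card (Addr B (i + 1)) = Fintype.card ((Bool × Fin B) × Addr B i) := rfl
    rw [this, Fintype.card_prod, ih]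
    simp; ring

end Pool.Agent.P.MP_9aa8f2_an
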