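import Pool.Agent.P.MP_9aa8f2_an.Core
import Pool.Agent.P.MP_9aa8f2_an.Atoms

namespace Pool.Agent.P.MP_9aa8f2_an

open Finset

abbrev E2 := EuclideanSpace ℝ (Fin 2)

noncomputable def pt (x y : ℝ) : E2 := WithLp.toLp 2 ![x, y]

theorem dist_pt (x y x' y' : ℝ) : dist (pt x y) (pt x' y') ≤ |x - x'| + |y - y'| := by
  rw [EuclideanSpace.dist_eq, Fin.sum_univ_two]
  refine Real.sqrt_le_iff.2 ⟨by positivity, ?_⟩
  simp only [pt, Matrix.cons_val_zero, Matrix.cons_val_one, Real.dist_eq]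
  nlinarith [mul_nonneg (abs_nonneg (x - x')) (abs_nonneg (y - y'))]

theorem coord_le (p q : E2) (i : Fin 2) : |p i - q i| ≤ dist p q := by
  rw [← Real.dist_eq]; exact PiLp.dist_apply_le p q i

theorem pt_mem {x y : ℝ} (hx : x ∈ Set.Icc (0 : ℝ) 1) (hy : y ∈ cantorSet) : pt x y ∈ comb :=
  ⟨hx, hy⟩

open Classical in
noncomputable def ext {M : Set E2} (f : M → ℝ) (x y : ℝ) : ℝ :=
  if h : pt x y ∈ M then f ⟨pt x y, h⟩ else 0

theorem ext_eq {M : Set E2} (f : M → ℝ) {x y : ℝ} (h : pt x y ∈ M) :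
    ext f x y = f ⟨pt x y, h⟩ := dif_pos h

theorem no_surjection {M : Set E2} (hM : comb ⊆ M) (p : M) (T : Lip0 (0 : ℝ) →ₗ[ℝ] Lip0 p)
    {C : ℝ} (hT : ∀ f, lipNorm (T f : M → ℝ) ≤ C * lipNorm (f : ℝ → ℝ)) :
    ¬ Function.Surjective T := by
  classical
  intro hs
  obtain ⟨D, hD, hpre⟩ := exists_preimage T hT hs
  obtain ⟨K, hK, hTK⟩ : ∃ K : ℝ, 0 < K ∧ ∀ f c, lipNorm (f : Lip0 (0 : ℝ)).1 ≤ c →
      ∀ q q' : M, |(T f : M → ℝ) q - (T f : M → ℝ) q'| ≤ K * c * dist q q' := by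
    refine ⟨|C| + 1, by positivity, fun f c hc q q' => ?_⟩
    refine (abs_sub_le_lipNorm (T f).2.1 q q').trans
      (mul_le_mul_of_nonneg_right ((hT f).trans ?_) dist_nonneg)
    have h0 := lipNorm_nonneg f.2.1
    have h1 := le_abs_self C
    have h2 := abs_nonneg C
    nlinarith
  obtain ⟨η, hη⟩ : ∃ η : ℝ, η = 1 / (2 * K) := ⟨_, rfl⟩
  have hη0 : 0 < η := by rw [hη]; positivity
  have hKη : K * η = 1 / 2 := by rw [hη]; field_simp
  obtain ⟨n, hn⟩ := exists_nat_gt ((18 * (D * 2 + 2 * η) * K) ^ 2)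
  have hB := base_pow n
  have hnB : n ≤ 3 ^ (n + 1) :=
    (Nat.lt_pow_self (by norm_num)).le.trans (Nat.pow_le_pow_right (by norm_num) n.le_succ)
  generalize 3 ^ (n + 1) = B at hB hnB
  choose g hg hgv using fun k : (Σ i : Fin n, (Addr B i → Bool)) => exists_test hB k.1 k.2
  have hgl : ∀ k (q q' : M), |(g k (q.1 0, q.1 1) - g k (p.1 0, p.1 1))
      - (g k (q'.1 0, q'.1 1) - g k (p.1 0, p.1 1))| ≤ 2 * dist q q' := fun k q q' => by
    have h1 := (hg k).dist_le_mul (q.1 0, q.1 1) (q'.1 0, q'.1 1)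
    have h2 : dist (q.1 0, q.1 1) (q'.1 0, q'.1 1) ≤ dist q q' := by
      rw [Prod.dist_eq]
      exact max_le (coord_le q.1 q'.1 0) (coord_le q.1 q'.1 1)
    rw [Real.dist_eq] at h1
    push_cast at h1
    rw [sub_sub_sub_cancel_right]
    linarith
  let ψ : (Σ i : Fin n, (Addr B i → Bool)) → Lip0 p := fun k =>
    ⟨fun q => g k (q.1 0, q.1 1) - g k (p.1 0, p.1 1), lip_of_abs_le zero_le_two (hgl k),
      sub_self _⟩
  choose x hx hxn using fun k => hpre (ψ k)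
  have hxD : ∀ k, lipNorm (x k : ℝ → ℝ) ≤ D * 2 := fun k =>
    (hxn k).trans (mul_le_mul_of_nonneg_left
      (lipNorm_le zero_le_two fun q q' => (le_abs_self _).trans (hgl k q q')) hD.le)
  obtain ⟨J, e, a, ha, he, hr⟩ := exists_atoms x hη0 hxD
  have hval : ∀ (c : _ → ℝ) (q : M), (T (∑ j ∈ J, c j • e j) : M → ℝ) q
      = ∑ j ∈ J, c j * (T (e j) : M → ℝ) q := fun c q => by
    rw [map_sum, Submodule.coe_sum, Finset.sum_apply]
    exact sum_congr rfl fun j _ => by rw [map_smul]; rfl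
  have hA : Atoms J (fun j => ext (T (e j) : M → ℝ)) K := by
    intro X hX X' hX' Y hY Y' hY'
    have m1 := hM (pt_mem hX hY)
    have m2 := hM (pt_mem hX' hY')
    simp only [ext_eq _ m1, ext_eq _ m2]
    let ε := fun j => sg (decide (0 ≤ (T (e j) : M → ℝ) ⟨_, m1⟩ - (T (e j) : M → ℝ) ⟨_, m2⟩))
    have h1 := hTK _ 1 (he ε fun j => (abs_sg _).le) ⟨_, m1⟩ ⟨_, m2⟩
    rw [hval, hval, ← sum_sub_distrib, mul_one] at h1
    have h2 : dist (⟨_, m1⟩ : M) ⟨_, m2⟩ ≤ |X - X'| + |Y - Y'| := dist_pt _ _ _ _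
    refine le_trans (le_of_eq (sum_congr rfl fun j _ => ?_))
      ((le_abs_self _).trans (h1.trans (mul_le_mul_of_nonneg_left h2 hK.le)))
    rw [← mul_sub]
    simp only [ε, sg, decide_eq_true_eq]
    split_ifs with h
    · rw [abs_of_nonneg h, one_mul]
    · rw [abs_of_neg (not_le.1 h), neg_one_mul]
  have hc := core hB hnB (D := D * 2 + 2 * η) hK.le (by positivity) hA fun i hi σ => by
    refine ⟨a ⟨⟨i, hi⟩, σ⟩, ha _, fun β Y hY h1 h2 => ?_⟩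
    obtain ⟨v1, v2, v3⟩ := hgv ⟨⟨i, hi⟩, σ⟩ β Y h1 h2
    have r := addr_range hB i (x := 0) (y := 0) zero_le_one β
    have hp := hB.rpos
    have ht0 : 0 < 1 / (B : ℝ) ^ (i + 1) := by positivity
    dsimp only at v1 v2 v3
    generalize 1 / (B : ℝ) ^ (i + 1) = t at *
    generalize mid B i 0 1 β = μ at *
    have m1 := hM (pt_mem (x := μ) ⟨by linarith [r.1], by linarith [r.2.1]⟩ hY)
    have m2 := hM (pt_mem (x := μ - t) ⟨by linarith [r.1], by linarith [r.2.1]⟩ hY)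
    have m3 := hM (pt_mem (x := μ + t) ⟨by linarith [r.1], by linarith [r.2.1]⟩ hY)
    obtain ⟨R, hR⟩ : ∃ R, R = T (x ⟨⟨i, hi⟩, σ⟩ - ∑ j ∈ J, a ⟨⟨i, hi⟩, σ⟩ j • e j) := ⟨_, rfl⟩
    have hRl : ∀ q q' : M, |(R : M → ℝ) q - (R : M → ℝ) q'| ≤ 1 / 2 * dist q q' := by
      rw [hR, ← hKη]; exact hTK _ η (hr _)
    have hG : ∀ X (m : pt X Y ∈ M), ∑ j ∈ J, a ⟨⟨i, hi⟩, σ⟩ j * ext (T (e j) : M → ℝ) X Y
        = g ⟨⟨i, hi⟩, σ⟩ (X, Y) - g ⟨⟨i, hi⟩, σ⟩ (p.1 0, p.1 1) - (R : M → ℝ) ⟨_, m⟩ :=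
      fun X m => by
      simp only [ext_eq _ m]
      rw [← hval, hR, map_sub, hx]
      change _ = _ - ((g ⟨⟨i, hi⟩, σ⟩ (X, Y) - g ⟨⟨i, hi⟩, σ⟩ (p.1 0, p.1 1)) - _)
      ring
    have d1 := hRl ⟨_, m1⟩ ⟨_, m2⟩
    have d2 := hRl ⟨_, m3⟩ ⟨_, m1⟩
    have e1 : dist (⟨_, m1⟩ : M) ⟨_, m2⟩ ≤ t := (dist_pt _ _ _ _).trans (by
      simp [abs_of_pos ht0])
    have e2 : dist (⟨_, m3⟩ : M) ⟨_, m1⟩ ≤ t := (dist_pt _ _ _ _).trans (by
      simp [abs_of_pos ht0])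
    simp only [sd, hG _ m1, hG _ m2, hG _ m3, v1, v2, v3]
    rw [abs_le] at d1 d2
    cases σ β <;> simp only [sg, if_true, Bool.false_eq_true, if_false] <;>
      linarith [d1.1, d1.2, d2.1, d2.2]
  have h0 : (0 : ℝ) < n := lt_of_le_of_lt (sq_nonneg _) hn
  have h1 := Real.sqrt_pos.2 h0
  have h2 := Real.mul_self_sqrt h0.le
  have h3 : √n ≤ 18 * (D * 2 + 2 * η) * K := le_of_mul_le_mul_right (by linarith) h1
  nlinarith

theorem cantor_scale {z : ℝ} (hz : z ∈ cantorSet) (k : ℤ) :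
    ∃ a : ℤ, (3 : ℝ) ^ k * z - a ∈ cantorSet := by
  induction k using Int.induction_on with
  | zero => exact ⟨0, by simpa using hz⟩
  | succ k ih =>
    obtain ⟨a, ha⟩ := ih
    rw [cantorSet_eq_union_halves] at ha
    rcases ha with ⟨w, hw, h⟩ | ⟨w, hw, h⟩
    · refine ⟨3 * a, ?_⟩
      convert hw using 1
      rw [zpow_add_one₀ (by norm_num)]
      push_cast
      simp only at h
      linarith
    · refine ⟨3 * a + 2, ?_⟩
      convert hw using 1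
      rw [zpow_add_one₀ (by norm_num)]
      push_cast
      simp only at h
      linarith
  | pred k _ =>
    refine ⟨0, ?_⟩
    have := div_pow_mem hz (k + 1)
    convert this using 1
    rw [show (-(k : ℤ) - 1) = -((k + 1 : ℕ) : ℤ) by push_cast; ring, zpow_neg, zpow_natCast]
    simp [div_eq_inv_mul]

theorem cantor_gap {z : ℝ} (hz : z ∈ cantorSet) : 0 ≤ z ∧ z ≤ 1 ∧ (z ≤ 1 / 3 ∨ 2 / 3 ≤ z) := by
  have h := cantorSet_subset_unitInterval hz
  refine ⟨h.1, h.2, ?_⟩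
  rw [cantorSet_eq_union_halves] at hz
  rcases hz with ⟨w, hw, rfl⟩ | ⟨w, hw, rfl⟩
  · left; have := (cantorSet_subset_unitInterval hw).2; simp only; linarith
  · right; have := (cantorSet_subset_unitInterval hw).1; simp only; linarith

theorem porous_comb : Porous comb := by
  refine ⟨1 / 27, by norm_num, fun p r hr => ?_⟩
  obtain ⟨k, hk1, hk2⟩ := exists_mem_Ico_zpow (x := 1 / r) (y := (3 : ℝ)) (by positivity)
    (by norm_num)
  obtain ⟨u, hu⟩ : ∃ u : ℝ, u = 3 ^ (k + 1) := ⟨_, rfl⟩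
  have hu0 : 0 < u := by rw [hu]; positivity
  have h1 : 1 < u * r := by rw [hu]; exact (div_lt_iff₀ hr).1 hk2
  have h2 : u * r ≤ 3 := by
    rw [hu, zpow_add_one₀ (by norm_num)]
    have := (le_div_iff₀ hr).1 hk1
    linarith
  obtain ⟨c, hc⟩ : ∃ c : ℝ, c = ((⌊u * p 1⌋ : ℝ) + 1 / 2) / u := ⟨_, rfl⟩
  have hcu : u * c = ⌊u * p 1⌋ + 1 / 2 := by rw [hc]; field_simp
  have f1 := Int.floor_le (u * p 1)
  have f2 := Int.lt_floor_add_one (u * p 1)
  have hd : dist (pt (p 0) c) p ≤ r / 2 := by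
    have hp : p = pt (p 0) (p 1) := by
      ext i; fin_cases i <;> rfl
    have := dist_pt (p 0) c (p 0) (p 1)
    rw [← hp, sub_self, abs_zero, zero_add] at this
    refine this.trans (le_of_mul_le_mul_left ?_ hu0)
    rw [← abs_of_pos hu0, ← abs_mul, abs_of_pos hu0, mul_sub, abs_le]
    constructor <;> linarith
  refine ⟨pt (p 0) c, fun q hq => ⟨?_, fun hqc => ?_⟩⟩
  · rw [Metric.mem_closedBall] at hq ⊢
    linarith [dist_triangle q (pt (p 0) c) p]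
  · rw [Metric.mem_closedBall] at hq
    have h3 : |q 1 - c| ≤ 1 / 27 * r := (coord_le q _ 1).trans hq
    obtain ⟨a, ha⟩ := cantor_scale hqc.2 (k + 1)
    rw [← hu] at ha
    obtain ⟨g1, g2, g3⟩ := cantor_gap ha
    rw [abs_le] at h3
    have h4 : u * q 1 ≤ u * c + 1 / 9 := by nlinarith [h3.2]
    have h5 : u * c - 1 / 9 ≤ u * q 1 := by nlinarith [h3.1]
    have h6 : (a : ℝ) < ⌊u * p 1⌋ + 1 := by linarith
    have h7 : (⌊u * p 1⌋ : ℝ) < a + 1 := by linarith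
    have h8 : a = ⌊u * p 1⌋ := by
      have : a < ⌊u * p 1⌋ + 1 := by exact_mod_cast h6
      have : ⌊u * p 1⌋ < a + 1 := by exact_mod_cast h7
      omega
    rw [h8] at g3
    rcases g3 with g3 | g3 <;> linarith

end Pool.Agent.P.MP_9aa8f2_an
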