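import Pool.Agent.P.MP_9aa8f2_an.Defs

namespace Pool.Agent.P.MP_9aa8f2_an

variable {X : Type} [MetricSpace X]

theorem lipNorm_le {f : X → ℝ} {K : ℝ} (hK : 0 ≤ K) (h : ∀ x y, f x - f y ≤ K * dist x y) :
    lipNorm f ≤ K := by
  refine Real.sSup_le ?_ hK
  rintro r ⟨x, y, hxy, rfl⟩
  rw [div_le_iff₀ (dist_pos.2 hxy)]
  exact h x y

theorem bdd_of_lip {f : X → ℝ} (hf : ∃ K : NNReal, LipschitzWith K f) :
    BddAbove {r : ℝ | ∃ x y : X, x ≠ y ∧ r = (f x - f y) / dist x y} := by
  obtain ⟨K, hK⟩ := hf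
  refine ⟨K, ?_⟩
  rintro r ⟨x, y, hxy, rfl⟩
  rw [div_le_iff₀ (dist_pos.2 hxy)]
  have := hK.dist_le_mul x y
  rw [Real.dist_eq] at this
  exact (le_abs_self _).trans this

theorem sub_le_lipNorm {f : X → ℝ} (hf : ∃ K : NNReal, LipschitzWith K f) (x y : X) :
    f x - f y ≤ lipNorm f * dist x y := by
  by_cases hxy : x = y
  · simp [hxy]
  · rw [← div_le_iff₀ (dist_pos.2 hxy)]
    exact le_csSup (bdd_of_lip hf) ⟨x, y, hxy, rfl⟩

theorem abs_sub_le_lipNorm {f : X → ℝ} (hf : ∃ K : NNReal, LipschitzWith K f) (x y : X) :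
    |f x - f y| ≤ lipNorm f * dist x y := by
  rw [abs_le]
  have h1 := sub_le_lipNorm hf x y
  have h2 := sub_le_lipNorm hf y x
  rw [dist_comm] at h2
  constructor <;> linarith

theorem lipNorm_nonneg {f : X → ℝ} (hf : ∃ K : NNReal, LipschitzWith K f) : 0 ≤ lipNorm f := by
  by_cases h : ∃ x y : X, x ≠ y
  · obtain ⟨x, y, hxy⟩ := h
    have h1 := abs_sub_le_lipNorm hf x y
    have h2 : 0 < dist x y := dist_pos.2 hxy
    by_contra hneg
    push Not at hneg
    have := mul_neg_of_neg_of_pos hneg h2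
    linarith [abs_nonneg (f x - f y)]
  · have : {r : ℝ | ∃ x y : X, x ≠ y ∧ r = (f x - f y) / dist x y} = ∅ := by
      ext r
      simp only [Set.mem_ofPred_eq, Set.mem_empty_iff_false, iff_false]
      rintro ⟨x, y, hxy, -⟩
      exact h ⟨x, y, hxy⟩
    simp [lipNorm, this]

theorem lip_of_abs_le {f : X → ℝ} {K : ℝ} (hK : 0 ≤ K) (h : ∀ x y, |f x - f y| ≤ K * dist x y) :
    ∃ K : NNReal, LipschitzWith K f :=
  ⟨⟨K, hK⟩, LipschitzWith.of_dist_le_mul fun x y => by rw [Real.dist_eq]; exact h x y⟩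

/-- Type synonym carrying the Lipschitz norm. -/
def LS (p : X) : Type := ↥(Lip0 p)

noncomputable instance (p : X) : AddCommGroup (LS p) := inferInstanceAs (AddCommGroup ↥(Lip0 p))
noncomputable instance (p : X) : Module ℝ (LS p) := inferInstanceAs (Module ℝ ↥(Lip0 p))

def LS.fn {p : X} (f : LS p) : X → ℝ := Subtype.val f

theorem LS.lip {p : X} (f : LS p) : ∃ K : NNReal, LipschitzWith K f.fn := (Subtype.property f).1
theorem LS.base {p : X} (f : LS p) : f.fn p = 0 := (Subtype.property f).2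
theorem LS.fn_add {p : X} (f g : LS p) (x : X) : (f + g).fn x = f.fn x + g.fn x := rfl
theorem LS.fn_sub {p : X} (f g : LS p) (x : X) : (f - g).fn x = f.fn x - g.fn x := rfl
theorem LS.fn_smul {p : X} (c : ℝ) (f : LS p) (x : X) : (c • f).fn x = c * f.fn x := rfl

noncomputable instance (p : X) : Norm (LS p) := ⟨fun f => lipNorm f.fn⟩

theorem LS.norm_def {p : X} (f : LS p) : ‖f‖ = lipNorm f.fn := rfl

theorem LS.smul_le {p : X} (c : ℝ) (f : LS p) : ‖c • f‖ ≤ |c| * ‖f‖ := by
  refine lipNorm_le (mul_nonneg (abs_nonneg _) (lipNorm_nonneg f.lip)) fun x y => ?_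
  rw [LS.fn_smul, LS.fn_smul, ← mul_sub, mul_assoc]
  refine (le_abs_self _).trans ?_
  rw [abs_mul]
  exact mul_le_mul_of_nonneg_left (abs_sub_le_lipNorm f.lip x y) (abs_nonneg _)

theorem LS.core (p : X) : NormedSpace.Core ℝ (LS p) where
  norm_nonneg f := lipNorm_nonneg f.lip
  norm_smul c f := by
    refine le_antisymm (LS.smul_le c f) ?_
    by_cases hc : c = 0
    · subst hc
      rw [norm_zero, zero_mul]
      exact lipNorm_nonneg ((0 : ℝ) • f).lip
    · have h := LS.smul_le c⁻¹ (c • f)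
      rw [smul_smul, inv_mul_cancel₀ hc, one_smul, abs_inv] at h
      have hc' : 0 < |c| := abs_pos.2 hc
      rw [Real.norm_eq_abs]
      calc |c| * ‖f‖ ≤ |c| * (|c|⁻¹ * ‖c • f‖) := mul_le_mul_of_nonneg_left h hc'.le
        _ = ‖c • f‖ := by field_simp
  norm_triangle f g := by
    refine lipNorm_le (add_nonneg (lipNorm_nonneg f.lip) (lipNorm_nonneg g.lip)) fun x y => ?_
    have h1 := sub_le_lipNorm f.lip x y
    have h2 := sub_le_lipNorm g.lip x y
    rw [LS.fn_add, LS.fn_add, LS.norm_def, LS.norm_def]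
    linarith
  norm_eq_zero_iff f := by
    constructor
    · intro h
      refine Subtype.ext (funext fun x => ?_)
      have h1 := abs_sub_le_lipNorm f.lip x p
      rw [← LS.norm_def, h, zero_mul, f.base, sub_zero] at h1
      exact abs_nonpos_iff.1 h1
    · rintro rfl
      refine le_antisymm (lipNorm_le le_rfl fun x y => ?_) (lipNorm_nonneg (0 : LS p).lip)
      change (0 : ℝ) - 0 ≤ _
      simp

noncomputable instance (p : X) : NormedAddCommGroup (LS p) := NormedAddCommGroup.ofCore (LS.core p)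
noncomputable instance (p : X) : NormedSpace ℝ (LS p) := NormedSpace.ofCore (LS.core p)

instance (p : X) : CompleteSpace (LS p) := by
  refine Metric.complete_of_cauchySeq_tendsto fun u hu => ?_
  have hu' := Metric.cauchySeq_iff.1 hu
  have key : ∀ n m x y, |((u n).fn x - (u m).fn x) - ((u n).fn y - (u m).fn y)|
      ≤ dist (u n) (u m) * dist x y := fun n m x y => by
    rw [dist_eq_norm]
    exact abs_sub_le_lipNorm (u n - u m).lip x y
  have hc : ∀ x, CauchySeq fun n => (u n).fn x := fun x => by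
    refine Metric.cauchySeq_iff.2 fun ε hε => ?_
    obtain ⟨N, hN⟩ := hu' (ε / (dist x p + 1)) (by positivity)
    refine ⟨N, fun n hn m hm => ?_⟩
    have h1 := key n m x p
    rw [(u n).base, (u m).base, sub_zero, sub_zero] at h1
    have h2 := hN n hn m hm
    rw [lt_div_iff₀ (by positivity)] at h2
    rw [Real.dist_eq]
    have := dist_nonneg (x := u n) (y := u m)
    nlinarith
  choose f hf using fun x => cauchySeq_tendsto_of_complete (hc x)
  have lim : ∀ ε > 0, ∃ N, ∀ n ≥ N, ∀ x y,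
      |((u n).fn x - f x) - ((u n).fn y - f y)| ≤ ε * dist x y := fun ε hε => by
    obtain ⟨N, hN⟩ := hu' ε hε
    refine ⟨N, fun n hn x y => ?_⟩
    have ht : Filter.Tendsto (fun m => |((u n).fn x - (u m).fn x) - ((u n).fn y - (u m).fn y)|)
        Filter.atTop (nhds |((u n).fn x - f x) - ((u n).fn y - f y)|) :=
      ((tendsto_const_nhds.sub (hf x)).sub (tendsto_const_nhds.sub (hf y))).abs
    refine le_of_tendsto ht ?_
    filter_upwards [Filter.eventually_ge_atTop N] with m hm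
    exact (key n m x y).trans (mul_le_mul_of_nonneg_right (hN n hn m hm).le dist_nonneg)
  have hlip : ∃ K : NNReal, LipschitzWith K f := by
    obtain ⟨N, hN⟩ := lim 1 one_pos
    refine lip_of_abs_le (K := lipNorm (u N).fn + 1)
      (add_nonneg (lipNorm_nonneg (u N).lip) zero_le_one) fun x y => ?_
    have h1 := hN N le_rfl x y
    have h2 := abs_sub_le_lipNorm (u N).lip x y
    rw [abs_le] at h1 h2 ⊢
    constructor <;> linarith [h1.1, h1.2, h2.1, h2.2]
  have hp : f p = 0 := by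
    have := hf p
    simp only [LS.base] at this
    exact tendsto_nhds_unique this tendsto_const_nhds
  obtain ⟨F, hF⟩ : ∃ F : LS p, F.fn = f := ⟨(⟨f, hlip, hp⟩ : ↥(Lip0 p)), rfl⟩
  refine ⟨F, Metric.tendsto_atTop.2 fun ε hε => ?_⟩
  obtain ⟨N, hN⟩ := lim (ε / 2) (by positivity)
  refine ⟨N, fun n hn => ?_⟩
  rw [dist_eq_norm]
  refine lt_of_le_of_lt (lipNorm_le (K := ε / 2) (by positivity) fun x y => ?_) (by linarith)
  rw [LS.fn_sub, LS.fn_sub, hF]
  exact (le_abs_self _).trans (hN n hn x y)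

/-- Open mapping theorem in terms of `lipNorm`. -/
theorem exists_preimage {Y : Type} [MetricSpace Y] {p : X} {q : Y} (T : Lip0 p →ₗ[ℝ] Lip0 q)
    {C : ℝ} (hT : ∀ f, lipNorm (T f : Y → ℝ) ≤ C * lipNorm (f : X → ℝ))
    (hs : Function.Surjective T) :
    ∃ D > 0, ∀ g : Lip0 q, ∃ f : Lip0 p, T f = g ∧
      lipNorm (f : X → ℝ) ≤ D * lipNorm (g : Y → ℝ) := by
  let T' : LS p →ₗ[ℝ] LS q := T
  let T'' : LS p →L[ℝ] LS q := T'.mkContinuous C hT
  exact T''.exists_preimage_norm_le hs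

end Pool.Agent.P.MP_9aa8f2_an
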