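import Mathlib

namespace Pool.Agent.P.MP_9aa8f2_an

open Finset

/-- Average of `φ` over the depth-`m` Cantor cluster with base point `y` and scale `s`. -/
noncomputable def avg (B : ℕ) : ℕ → ℝ → ℝ → (ℝ → ℝ) → ℝ
  | 0, y, _, φ => φ y
  | m + 1, y, s, φ => (avg B m y (s / B) φ + avg B m (y + 2 * (s / B)) (s / B) φ) / 2

/-- `y + b * 2 * t`. -/
noncomputable def yc (b : Bool) (y t : ℝ) : ℝ := if b then y + 2 * t else y

theorem avg_succ (B m : ℕ) (y s : ℝ) (φ : ℝ → ℝ) :
    avg B (m + 1) y s φ = (∑ b : Bool, avg B m (yc b y (s / B)) (s / B) φ) / 2 := by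
  simp [avg, yc, add_comm]

theorem avg_sum {ι : Type} (B m : ℕ) (J : Finset ι) (a : ι → ℝ) (φ : ι → ℝ → ℝ) (y s : ℝ) :
    avg B m y s (fun Y => ∑ j ∈ J, a j * φ j Y) = ∑ j ∈ J, a j * avg B m y s (φ j) := by
  induction m generalizing y s with
  | zero => rfl
  | succ m ih =>
    simp only [avg, ih, ← sum_add_distrib, sum_div]
    exact sum_congr rfl fun j _ => by ring

theorem avg_sub (B m : ℕ) (φ ψ : ℝ → ℝ) (y s : ℝ) :
    avg B m y s (fun Y => φ Y - ψ Y) = avg B m y s φ - avg B m y s ψ := by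
  induction m generalizing y s with
  | zero => rfl
  | succ m ih => simp only [avg, ih]; ring

theorem avg_mul (B m : ℕ) (c : ℝ) (φ : ℝ → ℝ) (y s : ℝ) :
    avg B m y s (fun Y => c * φ Y) = c * avg B m y s φ := by
  induction m generalizing y s with
  | zero => rfl
  | succ m ih => simp only [avg, ih]; ring

/-- Signed mass of the box. -/
noncomputable def sm (B m : ℕ) (F : ℝ → ℝ → ℝ) (x y s t : ℝ) : ℝ :=
  avg B m y t fun Y => F (x + s) Y - F x Y

theorem sm_tele (B m : ℕ) (F : ℝ → ℝ → ℝ) (x y t : ℝ) (k : ℕ) :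
    ∑ c ∈ range k, sm B m F (x + c * t) y t t = sm B m F x y (k * t) t := by
  induction k with
  | zero =>
    have := avg_mul B m 0 (fun _ => 0) y t
    simp only [sm] at *
    simpa using this.symm
  | succ k ih =>
    rw [sum_range_succ, ih]
    simp only [sm, avg_sub]
    have : x + (k : ℝ) * t + t = x + ((k + 1 : ℕ) : ℝ) * t := by push_cast; ring
    rw [this]; ring

/-- Addresses of the counted pairs at level `i`. -/
def Addr (B : ℕ) : ℕ → Type
  | 0 => Bool × Fin (B / 2)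
  | i + 1 => (Bool × Fin B) × Addr B i

instance instFintypeAddr (B : ℕ) : ∀ i, Fintype (Addr B i)
  | 0 => inferInstanceAs (Fintype (Bool × Fin (B / 2)))
  | i + 1 => @instFintypeProd _ _ inferInstance (instFintypeAddr B i)

theorem sum_addr_zero (B : ℕ) (g : Addr B 0 → ℝ) :
    ∑ β, g β = ∑ b : Bool, ∑ t : Fin (B / 2), g (b, t) := Fintype.sum_prod_type (f := g)

theorem sum_addr_succ (B i : ℕ) (g : Addr B (i + 1) → ℝ) :
    ∑ β, g β = ∑ b : Bool, ∑ c : Fin B, ∑ β : Addr B i, g ((b, c), β) := by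
  have h := Fintype.sum_prod_type (α₁ := Bool × Fin B) (α₂ := Addr B i) (f := g)
  exact h.trans (Fintype.sum_prod_type (f := fun bc : Bool × Fin B => ∑ β : Addr B i, g (bc, β)))

/-- Midpoint of the counted pair. -/
noncomputable def mid (B : ℕ) : ∀ i, ℝ → ℝ → Addr B i → ℝ
  | 0, x, s, β => x + (2 * (β.2 : ℕ) + 1) * (s / B)
  | i + 1, x, s, β => mid B i (x + (β.1.2 : ℕ) * (s / B)) (s / B) β.2

/-- Base point of the cluster of the counted pair. -/
noncomputable def yb (B : ℕ) : ∀ i, ℝ → ℝ → Addr B i → ℝ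
  | 0, y, s, β => yc β.1 y (s / B)
  | i + 1, y, s, β => yb B i (yc β.1.1 y (s / B)) (s / B) β.2

/-- Second difference at scale `t`. -/
def sd (F : ℝ → ℝ → ℝ) (X t Y : ℝ) : ℝ := (F X Y - F (X - t) Y) - (F (X + t) Y - F X Y)

/-- The counted coefficient. -/
noncomputable def al (B i m : ℕ) (F : ℝ → ℝ → ℝ) (x y s : ℝ) (β : Addr B i) : ℝ :=
  avg B m (yb B i y s β) (s / B ^ (i + 1)) (sd F (mid B i x s β) (s / B ^ (i + 1))) / 2 ^ (i + 1)

theorem al_succ (B i m : ℕ) (F : ℝ → ℝ → ℝ) (x y s : ℝ) (b : Bool) (c : Fin B) (β : Addr B i) :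
    al B (i + 1) m F x y s ((b, c), β)
      = al B i m F (x + (c : ℕ) * (s / B)) (yc b y (s / B)) (s / B) β / 2 := by
  have : s / (B : ℝ) ^ (i + 1 + 1) = s / B / B ^ (i + 1) := by rw [div_div, pow_succ' _ (i + 1)]
  simp only [al, mid, yb, this]
  rw [pow_succ (2 : ℝ) (i + 1), ← div_div]

theorem al_zero (B m : ℕ) (F : ℝ → ℝ → ℝ) (x y s : ℝ) (b : Bool) (t : Fin (B / 2)) :
    al B 0 m F x y s (b, t)
      = (sm B m F (x + ((2 * t : ℕ) : ℝ) * (s / B)) (yc b y (s / B)) (s / B) (s / B)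
        - sm B m F (x + ((2 * t + 1 : ℕ) : ℝ) * (s / B)) (yc b y (s / B)) (s / B) (s / B)) / 2 := by
  simp only [al, mid, yb, sm, zero_add, pow_one, ← avg_sub]
  congr 2
  funext Y
  have h1 : x + ((2 * t : ℕ) : ℝ) * (s / B) + s / B = x + (2 * (t : ℕ) + 1) * (s / B) := by
    push_cast; ring
  have h2 : x + ((2 * t : ℕ) : ℝ) * (s / B) = x + (2 * (t : ℕ) + 1) * (s / B) - s / B := by
    push_cast; ring
  have h3 : x + ((2 * t + 1 : ℕ) : ℝ) * (s / B) = x + (2 * (t : ℕ) + 1) * (s / B) := by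
    push_cast; ring
  rw [h1, h3, h2]
  rfl

noncomputable def qq (B i m : ℕ) (F : ℝ → ℝ → ℝ) (x y s : ℝ) : ℝ := ∑ β, al B i m F x y s β ^ 2

noncomputable def QQ (B n : ℕ) (F : ℝ → ℝ → ℝ) (x y s : ℝ) : ℝ :=
  ∑ i ∈ range n, qq B i (n - 1 - i) F x y s

noncomputable def VV (B : ℕ) (F : ℝ → ℝ → ℝ) : ℕ → ℝ → ℝ → ℝ → ℝ
  | 0, x, y, s => |F (x + s) y - F x y|
  | n + 1, x, y, s =>
    (∑ b : Bool, ∑ c ∈ range B, VV B F n (x + c * (s / B)) (yc b y (s / B)) (s / B)) / 2

noncomputable def EE (B : ℕ) (F : ℝ → ℝ → ℝ) : ℕ → ℝ → ℝ → ℝ → ℝ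
  | 0, _, _, _ => 0
  | n + 1, x, y, s =>
    |sm B n F x (y + 2 * (s / B)) s (s / B) - sm B n F x y s (s / B)| / 2 +
    (∑ b : Bool, ∑ c ∈ range B, EE B F n (x + c * (s / B)) (yc b y (s / B)) (s / B)) / 2

theorem VV_nonneg (B : ℕ) (F : ℝ → ℝ → ℝ) (n : ℕ) (x y s : ℝ) : 0 ≤ VV B F n x y s := by
  induction n generalizing x y s with
  | zero => exact abs_nonneg _
  | succ n ih =>
    exact div_nonneg (sum_nonneg fun b _ => sum_nonneg fun c _ => ih _ _ _) zero_le_two

theorem EE_nonneg (B : ℕ) (F : ℝ → ℝ → ℝ) (n : ℕ) (x y s : ℝ) : 0 ≤ EE B F n x y s := by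
  induction n generalizing x y s with
  | zero => exact le_rfl
  | succ n ih =>
    exact add_nonneg (by positivity)
      (div_nonneg (sum_nonneg fun b _ => sum_nonneg fun c _ => ih _ _ _) zero_le_two)

theorem QQ_succ (B n : ℕ) (F : ℝ → ℝ → ℝ) (x y s : ℝ) :
    QQ B (n + 1) F x y s = qq B 0 n F x y s +
      (∑ b : Bool, ∑ c ∈ range B, QQ B n F (x + c * (s / B)) (yc b y (s / B)) (s / B)) / 4 := by
  unfold QQ
  rw [sum_range_succ', add_comm]
  congr 1
  have : ∀ i ∈ range n, qq B (i + 1) (n + 1 - 1 - (i + 1)) F x y s = (∑ b : Bool, ∑ c ∈ range B,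
      qq B i (n - 1 - i) F (x + c * (s / B)) (yc b y (s / B)) (s / B)) / 4 := fun i _ => by
    have h : n + 1 - 1 - (i + 1) = n - 1 - i := by omega
    rw [h, qq, sum_addr_succ, sum_div]
    refine sum_congr rfl fun b _ => ?_
    rw [sum_div, ← Fin.sum_univ_eq_sum_range
      (fun c => qq B i (n - 1 - i) F (x + c * (s / B)) (yc b y (s / B)) (s / B) / 4)]
    refine sum_congr rfl fun c _ => ?_
    rw [qq, sum_div]
    refine sum_congr rfl fun β _ => ?_
    rw [al_succ]; ring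
  rw [sum_congr rfl this, ← sum_div, sum_comm]
  congr 1
  exact sum_congr rfl fun b _ => sum_comm

theorem pair_sum_le (u : ℕ → ℝ) (B : ℕ) :
    ∑ t ∈ range (B / 2), (u (2 * t) - u (2 * t + 1)) ^ 2 ≤ 2 * ∑ c ∈ range B, u c ^ 2 := by
  have h : ∀ k, ∑ t ∈ range k, (u (2 * t) - u (2 * t + 1)) ^ 2
      ≤ 2 * ∑ c ∈ range (2 * k), u c ^ 2 := fun k => by
    induction k with
    | zero => simp
    | succ k ih =>
      rw [sum_range_succ, show 2 * (k + 1) = 2 * k + 1 + 1 by ring, sum_range_succ,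
        sum_range_succ]
      nlinarith [sq_nonneg (u (2 * k) + u (2 * k + 1))]
  refine (h _).trans (mul_le_mul_of_nonneg_left ?_ zero_le_two)
  exact sum_le_sum_of_subset_of_nonneg (range_mono (by omega)) fun _ _ _ => sq_nonneg _

theorem abs_sm_le {B : ℕ} (hB : 0 < B) (F : ℝ → ℝ → ℝ) (n : ℕ) (x y s : ℝ) :
    |sm B n F x y s s| ≤ VV B F n x y s := by
  induction n generalizing x y s with
  | zero => exact le_rfl
  | succ n ih =>
    have hs : (B : ℝ) * (s / B) = s := by field_simp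
    have h : sm B (n + 1) F x y s s = (∑ b : Bool, ∑ c ∈ range B,
        sm B n F (x + c * (s / B)) (yc b y (s / B)) (s / B) (s / B)) / 2 := by
      simp only [sm_tele, hs]
      exact avg_succ _ _ _ _ _
    rw [h, VV, abs_div, abs_two]
    refine div_le_div_of_nonneg_right ((abs_sum_le_sum_abs _ _).trans (sum_le_sum fun b _ =>
      (abs_sum_le_sum_abs _ _).trans (sum_le_sum fun c _ => ih _ _ _))) zero_le_two

/-- The Sobolev-type inequality. -/
theorem bellman {B : ℕ} (hB : 0 < B) (F : ℝ → ℝ → ℝ) (n : ℕ) (x y s : ℝ) :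
    QQ B n F x y s ≤ 4 * VV B F n x y s ^ 2 - 2 * sm B n F x y s s ^ 2 + 2 * EE B F n x y s ^ 2 := by
  induction n generalizing x y s with
  | zero =>
    have : VV B F 0 x y s ^ 2 = sm B 0 F x y s s ^ 2 := sq_abs _
    simp only [QQ, range_zero, sum_empty, EE]
    nlinarith [sq_nonneg (sm B 0 F x y s s)]
  | succ n ih =>
    have hs : (B : ℝ) * (s / B) = s := by field_simp
    set t := s / B with ht
    let u : Bool → ℕ → ℝ := fun b c => sm B n F (x + c * t) (yc b y t) t t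
    let v : Bool → ℕ → ℝ := fun b c => VV B F n (x + c * t) (yc b y t) t
    let e : Bool → ℕ → ℝ := fun b c => EE B F n (x + c * t) (yc b y t) t
    have hq : qq B 0 n F x y s ≤ (∑ b : Bool, ∑ c ∈ range B, u b c ^ 2) / 2 := by
      rw [qq, sum_addr_zero, sum_div]
      refine sum_le_sum fun b _ => ?_
      have h1 := pair_sum_le (u b) B
      rw [← Fin.sum_univ_eq_sum_range (fun t => (u b (2 * t) - u b (2 * t + 1)) ^ 2)] at h1
      have h2 : ∑ t' : Fin (B / 2), al B 0 n F x y s (b, t') ^ 2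
          = (∑ t' : Fin (B / 2), (u b (2 * t') - u b (2 * t' + 1)) ^ 2) / 4 := by
        rw [sum_div]
        refine sum_congr rfl fun t' _ => ?_
        rw [al_zero]; simp only [u, ht]; ring
      rw [h2]; linarith
    have hb : ∀ b, ∑ c ∈ range B, QQ B n F (x + c * t) (yc b y t) t ≤
        4 * (∑ c ∈ range B, v b c) ^ 2 - 2 * ∑ c ∈ range B, u b c ^ 2
          + 2 * (∑ c ∈ range B, e b c) ^ 2 := fun b => by
      have h1 : ∑ c ∈ range B, v b c ^ 2 ≤ (∑ c ∈ range B, v b c) ^ 2 :=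
        sum_sq_le_sq_sum_of_nonneg fun c _ => VV_nonneg _ _ _ _ _ _
      have h2 : ∑ c ∈ range B, e b c ^ 2 ≤ (∑ c ∈ range B, e b c) ^ 2 :=
        sum_sq_le_sq_sum_of_nonneg fun c _ => EE_nonneg _ _ _ _ _ _
      have h3 : ∑ c ∈ range B, QQ B n F (x + c * t) (yc b y t) t ≤
          ∑ c ∈ range B, (4 * v b c ^ 2 - 2 * u b c ^ 2 + 2 * e b c ^ 2) :=
        sum_le_sum fun c _ => ih _ _ _
      rw [sum_add_distrib, sum_sub_distrib, ← mul_sum, ← mul_sum, ← mul_sum] at h3
      linarith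
    have hS : ∀ b, |sm B n F x (yc b y t) s t| ≤ ∑ c ∈ range B, v b c := fun b => by
      have := sm_tele B n F x (yc b y t) t B
      rw [hs] at this
      rw [← this]
      exact (abs_sum_le_sum_abs _ _).trans (sum_le_sum fun c _ => abs_sm_le hB _ _ _ _ _)
    have he : ∀ b, 0 ≤ ∑ c ∈ range B, e b c := fun b =>
      sum_nonneg fun c _ => EE_nonneg _ _ _ _ _ _
    have hsm : sm B (n + 1) F x y s s
        = (sm B n F x (yc true y t) s t + sm B n F x (yc false y t) s t) / 2 := by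
      have := avg_succ B n y s fun Y => F (x + s) Y - F x Y
      rw [Fintype.sum_bool] at this
      exact this
    have hV : VV B F (n + 1) x y s = (∑ c ∈ range B, v true c + ∑ c ∈ range B, v false c) / 2 := by
      rw [VV, Fintype.sum_bool]
    have hE : EE B F (n + 1) x y s
        = |sm B n F x (yc true y t) s t - sm B n F x (yc false y t) s t| / 2
          + (∑ c ∈ range B, e true c + ∑ c ∈ range B, e false c) / 2 := by
      rw [EE, Fintype.sum_bool]; rfl
    rw [QQ_succ, Fintype.sum_bool, hsm, hV, hE]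
    rw [Fintype.sum_bool] at hq
    have b1 := hb true
    have b0 := hb false
    have s1 := hS true
    have s0 := hS false
    have e1 := he true
    have e0 := he false
    generalize sm B n F x (yc true y t) s t = S1 at *
    generalize sm B n F x (yc false y t) s t = S0 at *
    generalize ∑ c ∈ range B, v true c = v1 at *
    generalize ∑ c ∈ range B, v false c = v0 at *
    generalize ∑ c ∈ range B, e true c = E1 at *
    generalize ∑ c ∈ range B, e false c = E0 at *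
    have h1 : S1 * S0 ≤ v1 * v0 :=
      (le_abs_self _).trans (by
        rw [abs_mul]; exact mul_le_mul s1 s0 (abs_nonneg _) ((abs_nonneg _).trans s1))
    have h2 : |S1 - S0| ^ 2 = (S1 - S0) ^ 2 := sq_abs _
    have h3 : 0 ≤ |S1 - S0| * (E1 + E0) := mul_nonneg (abs_nonneg _) (add_nonneg e1 e0)
    have h4 : 0 ≤ E1 * E0 := mul_nonneg e1 e0
    nlinarith

theorem sqrt_QQ_le {B : ℕ} (hB : 0 < B) (F : ℝ → ℝ → ℝ) (n : ℕ) (x y s : ℝ) :
    √(QQ B n F x y s) ≤ 2 * VV B F n x y s + 2 * EE B F n x y s := by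
  have h1 := VV_nonneg B F n x y s
  have h2 := EE_nonneg B F n x y s
  refine Real.sqrt_le_iff.2 ⟨by positivity, (bellman hB F n x y s).trans ?_⟩
  nlinarith [sq_nonneg (sm B n F x y s s), mul_nonneg h1 h2]

end Pool.Agent.P.MP_9aa8f2_an
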